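import Pool.Agent.J4H72.MF.Cor

/-!
# How often primes in intervals of length `(log n)^a` are irregular

Let `R(x, y) = (log x / y) (π(x + y) - π(x))`. Maier's theorem says that `R(x, (log x)^a)` does not tend to `1`,
in either direction. Here the integers `n` at which this happens are counted, with explicit deviations.

* For `u ≥ 1`, a length `h ≥ log X` and `Z = h^(1/u)` with `(C u)^(C u) ≤ Z ≤ (log X) / 1000`, at least
  `X exp(-3 Z)` of the integers `X < n < 3 X` satisfy `R(n, h) ≥ 1 + (C u)^(-C u)`, and at least as many satisfy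
  `R(n, h) ≤ 1 - (C u)^(-C u)`; this is uniform in `u` and `h`.
* In particular, for all `a > 1` and `0 < ε ≤ 1`, at least `X exp(-(log X)^ε)` of the integers `X < n < 3 X` satisfy
  `R(n, (log n)^a) ≥ 1 + δ`, and at least as many satisfy `R(n, (log n)^a) ≤ 1 - δ`, with
  `δ = (C a / ε)^(-C a / ε)`.

The proof uses Maier's matrix with the modulus `∏ p` over the primes `z^(1 - τ) < p ≤ z`, `z = h^(1 / (k + 1/2))`,
`τ ≈ 1 / (4 k)`, the sieve of Eratosthenes-Legendre cut at the degree `k`, which is exact as all products of `k + 1`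
of these primes exceed `h`, Bonferroni's inequalities, and the library's theorem on the rows of the matrix
(`Pool.Agent.N610.MS.t_ROWS`, here with an error term).
-/

set_option autoImplicit false

namespace Pool.Agent.Results.MP_b09185_nt.MaierFrequency

open Filter

/-- `R(x, y) = (log x / y) (π(x + y) - π(x))` -/
noncomputable def R (x y : ℝ) : ℝ :=
  Real.log x / y * ((Nat.primeCounting ⌊x + y⌋₊ : ℝ) - Nat.primeCounting ⌊x⌋₊)

lemma R_eq (x y : ℝ) : Pool.Agent.N610.MS.R x y = R x y := by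
  unfold Pool.Agent.N610.MS.R R
  rw [div_div_eq_mul_div]
  ring

lemma xx_mono {x y : ℝ} (hx : 1 ≤ x) (hxy : x ≤ y) : x ^ x ≤ y ^ y ∧ y ^ (-y) ≤ x ^ (-x) := by
  have hy : 1 ≤ y := hx.trans hxy
  have h1 : x ^ x ≤ y ^ y :=
    (Real.rpow_le_rpow (by linarith) hxy (by linarith)).trans (Real.rpow_le_rpow_of_exponent_le hy hxy)
  refine ⟨h1, ?_⟩
  rw [Real.rpow_neg (by linarith), Real.rpow_neg (by linarith)]
  exact inv_anti₀ (Real.rpow_pos_of_pos (by linarith) _) h1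

lemma up_set (X : ℝ) (δ δ' : ℝ) (hδ : δ' ≤ δ) (f : ℕ → ℝ) :
    ({n : ℕ | X < n ∧ (n : ℝ) < 3 * X ∧ δ ≤ 1 * (Pool.Agent.N610.MS.R n (f n) - 1)}.ncard : ℝ) ≤
      ({n : ℕ | X < n ∧ (n : ℝ) < 3 * X ∧ 1 + δ' ≤ R n (f n)}.ncard : ℝ) := by
  have hfin : {n : ℕ | X < n ∧ (n : ℝ) < 3 * X ∧ 1 + δ' ≤ R n (f n)}.Finite := by
    apply (Set.finite_Iic ⌊3 * X⌋₊).subset
    rintro n ⟨_, h2, _⟩
    exact Nat.le_floor h2.le
  have hsub : {n : ℕ | X < n ∧ (n : ℝ) < 3 * X ∧ δ ≤ 1 * (Pool.Agent.N610.MS.R n (f n) - 1)} ⊆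
      {n : ℕ | X < n ∧ (n : ℝ) < 3 * X ∧ 1 + δ' ≤ R n (f n)} := by
    rintro n ⟨h1, h2, h3⟩
    refine ⟨h1, h2, ?_⟩
    rw [R_eq] at h3
    linarith
  exact_mod_cast Set.ncard_le_ncard hsub hfin

lemma down_set (X : ℝ) (δ δ' : ℝ) (hδ : δ' ≤ δ) (f : ℕ → ℝ) :
    ({n : ℕ | X < n ∧ (n : ℝ) < 3 * X ∧ δ ≤ -1 * (Pool.Agent.N610.MS.R n (f n) - 1)}.ncard : ℝ) ≤
      ({n : ℕ | X < n ∧ (n : ℝ) < 3 * X ∧ R n (f n) ≤ 1 - δ'}.ncard : ℝ) := by
  have hfin : {n : ℕ | X < n ∧ (n : ℝ) < 3 * X ∧ R n (f n) ≤ 1 - δ'}.Finite := by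
    apply (Set.finite_Iic ⌊3 * X⌋₊).subset
    rintro n ⟨_, h2, _⟩
    exact Nat.le_floor h2.le
  have hsub : {n : ℕ | X < n ∧ (n : ℝ) < 3 * X ∧ δ ≤ -1 * (Pool.Agent.N610.MS.R n (f n) - 1)} ⊆
      {n : ℕ | X < n ∧ (n : ℝ) < 3 * X ∧ R n (f n) ≤ 1 - δ'} := by
    rintro n ⟨h1, h2, h3⟩
    refine ⟨h1, h2, ?_⟩
    rw [R_eq] at h3
    linarith
  exact_mod_cast Set.ncard_le_ncard hsub hfin

/-- **The frequency of Maier's irregularities of the primes in short intervals.** -/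
theorem result : ∃ C : ℝ, 1 ≤ C ∧
    (∀ᶠ X : ℝ in atTop, ∀ u h : ℝ, 1 ≤ u → Real.log X ≤ h →
      (C * u) ^ (C * u) ≤ h ^ (1 / u) → 1000 * h ^ (1 / u) ≤ Real.log X →
        X * Real.exp (-(3 * h ^ (1 / u))) ≤
          ({n : ℕ | X < n ∧ (n : ℝ) < 3 * X ∧ 1 + (C * u) ^ (-(C * u)) ≤ R n h}.ncard : ℝ) ∧
        X * Real.exp (-(3 * h ^ (1 / u))) ≤
          ({n : ℕ | X < n ∧ (n : ℝ) < 3 * X ∧ R n h ≤ 1 - (C * u) ^ (-(C * u))}.ncard : ℝ)) ∧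
    (∀ a ε : ℝ, 1 < a → 0 < ε → ε ≤ 1 → ∀ᶠ X : ℝ in atTop,
        X * Real.exp (-(Real.log X ^ ε)) ≤
          ({n : ℕ | X < n ∧ (n : ℝ) < 3 * X ∧
            1 + (C * (a / ε)) ^ (-(C * (a / ε))) ≤ R n (Real.log n ^ a)}.ncard : ℝ) ∧
        X * Real.exp (-(Real.log X ^ ε)) ≤
          ({n : ℕ | X < n ∧ (n : ℝ) < 3 * X ∧
            R n (Real.log n ^ a) ≤ 1 - (C * (a / ε)) ^ (-(C * (a / ε)))}.ncard : ℝ)) := by
  obtain ⟨C1, hC1, h1⟩ := Pool.Agent.J4H72.MF.unif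
  obtain ⟨C2, hC2, h2⟩ := Pool.Agent.J4H72.MF.cor
  obtain ⟨C, hCd⟩ : ∃ C : ℝ, C = max C1 C2 := ⟨_, rfl⟩
  have hCC1 : C1 ≤ C := by rw [hCd]; exact le_max_left _ _
  have hCC2 : C2 ≤ C := by rw [hCd]; exact le_max_right _ _
  refine ⟨C, hC1.trans hCC1, ?_, ?_⟩
  · filter_upwards [h1] with X hX u h hu hh hZ hZX
    have hm := xx_mono (x := C1 * u) (y := C * u) (by nlinarith)
      (mul_le_mul_of_nonneg_right hCC1 (by linarith))
    have hZ' : (C1 * u) ^ (C1 * u) ≤ h ^ (1 / u) := hm.1.trans hZ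
    exact ⟨(hX u h 1 hu hh hZ' hZX (Or.inl rfl)).trans (up_set X _ _ hm.2 (fun _ => h)),
      (hX u h (-1) hu hh hZ' hZX (Or.inr rfl)).trans (down_set X _ _ hm.2 (fun _ => h))⟩
  · intro a ε ha hε hε1
    have haε : 1 ≤ a / ε := by rw [le_div_iff₀ hε]; linarith
    have hm := xx_mono (x := C2 * (a / ε)) (y := C * (a / ε)) (by nlinarith)
      (mul_le_mul_of_nonneg_right hCC2 (by linarith))
    filter_upwards [h2 a ε ha hε hε1] with X hX
    exact ⟨(hX 1 (Or.inl rfl)).trans (up_set X _ _ hm.2 (fun n => Real.log n ^ a)),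
      (hX (-1) (Or.inr rfl)).trans (down_set X _ _ hm.2 (fun n => Real.log n ^ a))⟩

end Pool.Agent.Results.MP_b09185_nt.MaierFrequency
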