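import Pool.Agent.J4H33.H5

/-!
# Primes in short intervals at the multiples of an arbitrary set, for almost all prime multipliers

Let `w` be ANY weight function on the positive integers up to `N`, `0 ≤ w ≤ 1`, with sum at least `N / D` (for example the
indicator function of an arbitrary set of at least `N / D` integers). Then for ALL primes `a ∈ [β M, M]` but at most
`M ^ (1 - ε) log N` of them the following holds for ALL `H` with `H₀ ≤ H ≤ N ^ (1 - ρ)` simultaneously: the mean of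
`density H (a n)` over `n`, with the weights `w n`, is `1 + O(δ)`, where `density H x` is the number of primes in `(x - H, x)`
divided by its expected value `H / log x`. Here `M` may be a power of `log N` (or of `N`), and `D` and `H₀` too. There is no
exceptional `N`.

Proof. Apply the theorem on arbitrary sparse sets of multipliers (`MP_711652_nt/SparseDilates`) to the set of the primes `a`
for which the mean is too large (or too small) for one length `H`: for almost all `n` the sum over `a` is the expected one, so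
that this set must be small. As its elements are arbitrary, this needs that theorem for arbitrary sets of multipliers. Then
the lengths `H` are taken from a geometric progression.
-/

set_option autoImplicit false

namespace Pool.Agent.Results.MP_b09185_nt.MultiplesOfAnySet

open Finset

/-- the number of primes in the open interval `(x - H, x)`, divided by its expected value `H / log x` -/
noncomputable def density (H x : ℝ) : ℝ :=
  (Set.ncard {p : ℕ | p.Prime ∧ x - H < p ∧ (p : ℝ) < x} : ℝ) * Real.log x / H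

theorem result (γ ε θ ρ β δ : ℝ) (hγ : 0 < γ) (hε : 0 < ε) (hθ : 0 < θ) (hcond : γ + (1 + θ) * ε < 1 / 3) (hρ : 0 < ρ)
    (hβ : 0 < β) (hδ : 0 < δ) :
    ∃ s N₀ : ℝ, 0 < s ∧ ∀ N : ℝ, N₀ ≤ N → ∀ M D H₀ : ℝ, 1 ≤ D → 0 < H₀ → 0 < M → M ≤ N ^ θ →
      D * max 1 (M / H₀) ≤ N ^ s → D * max 1 (M / H₀) * Real.log N ^ 3 ≤ M ^ γ →
      ∀ w : ℕ → ℝ, (∀ n, 0 ≤ w n) → (∀ n, w n ≤ 1) → N / D ≤ ∑ n ∈ Icc 1 ⌊N⌋₊, w n →
      ∃ B : Finset ℕ, (B.card : ℝ) ≤ M ^ (1 - ε) * Real.log N ∧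
        ∀ a : ℕ, a.Prime → β * M ≤ (a : ℝ) → (a : ℝ) ≤ M → a ∉ B → ∀ H : ℝ, H₀ ≤ H → H ≤ N ^ (1 - ρ) →
          |∑ n ∈ Icc 1 ⌊N⌋₊, w n * (density H (a * n) - 1)| ≤ δ * ∑ n ∈ Icc 1 ⌊N⌋₊, w n := by
  classical
  obtain ⟨δ₁, hδ₁⟩ : ∃ δ₁, δ₁ = min δ 1 := ⟨_, rfl⟩
  have hδ₁0 : 0 < δ₁ := by rw [hδ₁]; exact lt_min hδ one_pos
  have hδ₁1 : δ₁ ≤ δ := by rw [hδ₁]; exact min_le_left _ _
  have hδ₁2 : δ₁ ≤ 1 := by rw [hδ₁]; exact min_le_right _ _
  obtain ⟨s, N₀, hs, h⟩ := Pool.Agent.J4H33.DU.dual γ ε θ ρ β δ₁ hγ hε hθ hcond hρ hβ hδ₁0 hδ₁2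
  refine ⟨s, N₀, hs, fun N hN M D H₀ hD hH₀ hM hMN h1 h2 w hw0 hw1 hw => ?_⟩
  obtain ⟨B, hB, hB'⟩ := h N hN M D H₀ hD hH₀ hM hMN h1 h2 w hw0 hw1 hw
  refine ⟨B, hB, fun a ha1 ha2 ha3 ha4 H hH1 hH2 => ?_⟩
  have h3 := hB' a ha1 ha2 ha3 ha4 H hH1 hH2
  have hS0 : 0 ≤ ∑ n ∈ Icc 1 ⌊N⌋₊, w n := sum_nonneg fun n _ => hw0 n
  have e : ∑ n ∈ Icc 1 ⌊N⌋₊, w n * (density H (a * n) - 1) =
      Pool.Agent.J4H33.DU.TW w N H a - Pool.Agent.J4H33.DU.SW w N := by
    unfold Pool.Agent.J4H33.DU.TW Pool.Agent.J4H33.DU.SW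
    rw [← sum_sub_distrib]
    apply sum_congr rfl
    intro n _
    have e1 : density H ((a : ℝ) * n) = Pool.Agent.Results.MP_711652_nt.SparseDilates.density H ((a : ℝ) * n) := rfl
    rw [e1]
    ring
  rw [e]
  exact h3.trans (mul_le_mul_of_nonneg_right hδ₁1 hS0)

end Pool.Agent.Results.MP_b09185_nt.MultiplesOfAnySet
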