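import Pool.Agent.J4H77.TR.LasR

/-!
# Primes in the intervals `(x, x + (log x) ^ a]`, `x ∈ A + v`: many arbitrary sets `A`, and shifts `v` which differ from many
given integers by the sum of very few elements of an arbitrary set which meets every interval `[x, l x]`

The proof: the elements of the set are chosen at random; the law of their sum has a thin large spectrum (starting files,
`Pool.Agent.Y885.las_lawP`), so that the von Mangoldt function can be replaced by its sieve model in the sums over the translates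
`A + v`, with an exceptional probability of an arbitrary power of the logarithm; the model is computed in intervals of
polylogarithmic length by the fundamental lemma. The bound for the number of the good points is from the starting files
(`Pool.Agent.W301.SS`, Selberg's upper bound function).
-/

set_option autoImplicit false

namespace Pool.Agent.Results.MP_b09185_nt.TranslatesByFewElements

open Finset

/-- `R_h(x) = (log x / h) (π(x + h) - π(x))` for `h = (log x) ^ a`. -/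
noncomputable def R (a x : ℝ) : ℝ :=
  Real.log x / Real.log x ^ a * ((Nat.primeCounting ⌊x + Real.log x ^ a⌋₊ : ℝ) - Nat.primeCounting ⌊x⌋₊)

open Classical in
/-- On the translate `A + v` the ratios `R a x` are normal: for all exponents `a ≥ a₀` with `(log N) ^ a ≤ N`, the mean of `R a x`
over the `x ∈ A + v` differs from `1` by at most `ε`, and `R a x ≥ ε / 2` holds for at least `(1 / 4 - ε) |A|` of the
`x ∈ A + v`. -/
def Normal (ε a₀ : ℝ) (N : ℕ) (A : Finset ℕ) (v : ℤ) : Prop :=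
  ∀ a : ℝ, a₀ ≤ a → Real.log N ^ a ≤ N →
    |∑ n ∈ A, R a ((n + v : ℤ) : ℝ) - A.card| ≤ ε * A.card ∧
    (1 / 4 - ε) * A.card ≤ ((A.filter fun n : ℕ => ε / 2 ≤ R a ((n + v : ℤ) : ℝ)).card : ℝ)

/-- For all `l ≥ 2`, `Q ≥ 1`, `C` and `T` there is a constant `C₁` such that for all `H`, `B` and `0 < ε ≤ 1 / 4` there are `a₀`
and `N₀` with the following property. Let `D` be ANY set of integers with an element in every interval `[x, l x]`, `x ≥ 1`, let
`N ≥ N₀`, let `F` be a collection of at most `log ^ T N` arbitrary sets `A` of at least `N / log ^ C N` integers in `[1, N]`, and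
let `Y` be a set of at most `log ^ T N` integers between `N` and `B N`. Then there is a set `S` of at most
`C₁ (log log N) ^ 2` elements of `D`, all between `log ^ H N` and `N / log ^ H N`, with a sum `σ` divisible by `Q`, such that
for all `A ∈ F`, all `y ∈ Y` and both `v = y + σ` and `v = y - σ`, the ratios `R` are normal on `A + v`: for ALL exponents
`a ≥ a₀` with `(log N) ^ a ≤ N`, the mean over the `x ∈ A + v` of `R_h(x)`, `h = (log x) ^ a`, differs from `1` by at most `ε`,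
and `R_h(x) ≥ ε / 2` for at least `(1 / 4 - ε) |A|` of the `x ∈ A + v`. -/
theorem result (l Q C T : ℕ) (hl : 2 ≤ l) (hQ : 1 ≤ Q) : ∃ C₁ : ℝ, ∀ (H B : ℕ) (ε : ℝ), 0 < ε → ε ≤ 1 / 4 →
    ∃ (a₀ : ℝ) (N₀ : ℕ), ∀ D : Set ℕ, (∀ x : ℕ, 1 ≤ x → ∃ a ∈ D, x ≤ a ∧ a ≤ l * x) → ∀ N : ℕ, N₀ ≤ N →
    ∀ F : Finset (Finset ℕ), (∀ A ∈ F, A ⊆ Icc 1 N ∧ (N : ℝ) ≤ A.card * Real.log N ^ C) → (F.card : ℝ) ≤ Real.log N ^ T →
    ∀ Y : Finset ℕ, (∀ y ∈ Y, N ≤ y ∧ y ≤ B * N) → (Y.card : ℝ) ≤ Real.log N ^ T →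
    ∃ S : Finset ℕ, (∀ a ∈ S, a ∈ D ∧ Real.log N ^ H ≤ a ∧ (a : ℝ) ≤ N / Real.log N ^ H) ∧
      (S.card : ℝ) ≤ C₁ * Real.log (Real.log N) ^ 2 ∧ Q ∣ ∑ a ∈ S, a ∧
      ∀ A ∈ F, ∀ y ∈ Y, Normal ε a₀ N A (y + ((∑ a ∈ S, a : ℕ) : ℤ)) ∧ Normal ε a₀ N A (y - ((∑ a ∈ S, a : ℕ) : ℤ)) := by
  classical
  obtain ⟨C₁, h1⟩ := Pool.Agent.J4H77.TR.las_ratio l Q C T hl hQ
  refine ⟨C₁, fun H B ε hε hε1 => ?_⟩
  obtain ⟨a₀, N₀, h2⟩ := h1 H B ε hε hε1
  refine ⟨a₀, N₀, fun D hD N hN F hF hFc Y hY hYc => ?_⟩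
  obtain ⟨S, s1, s2, s3, s4⟩ := h2 D hD N hN F hF hFc Y hY hYc
  have hR : ∀ a x, R a x = Pool.Agent.J4H77.TR.ratio a x := fun _ _ => rfl
  refine ⟨S, s1, s2, s3, fun A hA y hy => ⟨fun a ha haN => ?_, fun a ha haN => ?_⟩⟩
  · obtain ⟨h3, h4⟩ := s4 A hA y hy _ (Or.inl rfl) a ha haN
    refine ⟨h3, h4.trans (le_of_eq ?_)⟩
    congr
  · obtain ⟨h3, h4⟩ := s4 A hA y hy _ (Or.inr rfl) a ha haN
    refine ⟨h3, h4.trans (le_of_eq ?_)⟩
    congr

end Pool.Agent.Results.MP_b09185_nt.TranslatesByFewElements
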