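import Pool.Agent.J4H77.TR.RsR

/-!
# Primes in the intervals `(x, x + (log x) ^ a]`, `x ∈ A + v`: many arbitrary sets `A`, for almost all sums `v` of independent
random integers, with up to two fifths of the scales missing

The proof: the law of a sum of independent random integers, one at every scale, has a thin large spectrum (starting files,
`Pool.Agent.Y885.rand_law`), so that the von Mangoldt function can be replaced by its sieve model in the sums over the translates
`A + v`, with an exceptional probability of an arbitrary power of the logarithm; the model is computed in intervals of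
polylogarithmic length by the fundamental lemma. The bound for the number of the good points is from the starting files
(`Pool.Agent.W301.SS`, Selberg's upper bound function).
-/

set_option autoImplicit false

namespace Pool.Agent.Results.MP_b09185_nt.TranslatesByRandomSums

open Finset

/-- `R_h(x) = (log x / h) (π(x + h) - π(x))` for `h = (log x) ^ a`. -/
noncomputable def R (a x : ℝ) : ℝ :=
  Real.log x / Real.log x ^ a * ((Nat.primeCounting ⌊x + Real.log x ^ a⌋₊ : ℝ) - Nat.primeCounting ⌊x⌋₊)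

open Classical in
/-- On the translate `A + v` the ratios `R a x` are normal: for all exponents `a ≥ a₀` with `(log N) ^ a ≤ N`, the mean of `R a x`
over the `x ∈ A + v` differs from `1` by at most `ε`, and `R a x ≥ ε / 2` holds for at least `(1 / 4 - ε) |A|` of the
`x ∈ A + v`. -/
def Normal (ε a₀ : ℝ) (N : ℕ) (A : Finset ℕ) (v : ℤ) : Prop :=
  ∀ a : ℝ, a₀ ≤ a → Real.log N ^ a ≤ N →
    |∑ n ∈ A, R a ((n + v : ℤ) : ℝ) - A.card| ≤ ε * A.card ∧
    (1 / 4 - ε) * A.card ≤ ((A.filter fun n : ℕ => ε / 2 ≤ R a ((n + v : ℤ) : ℝ)).card : ℝ)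

/-- The set `J` of scales below `k` is rich: it contains more than three fifths of all the scales, more than one half
of the `m` lowest scales, and a positive proportion of the `m` highest scales (the last two conditions are
void for `m ≤ D log k`). -/
structure Rich (δ : ℝ) (D k : ℕ) (J : Finset ℕ) : Prop where
  lt : ∀ j ∈ J, j < k
  all : (3 / 5 + δ) * k ≤ (J.card : ℝ)
  low : ∀ m ≤ k, (1 / 2 + δ) * m ≤ ((J.filter fun j => j < m).card : ℝ) + D * Real.log k
  high : ∀ m ≤ k, δ * m ≤ ((J.filter fun j => k - m ≤ j).card : ℝ) + D * Real.log k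

open Classical in
/-- The probability of the event `E` if `x 0, ..., x (k - 1)` are independent random integers, where `x j` takes
its values in the finite set `s j`, and the value `x` with the probability `p j x`. -/
noncomputable def Prob (k : ℕ) (s : ℕ → Finset ℤ) (p : ℕ → ℤ → ℝ) (E : (Fin k → ℤ) → Prop) : ℝ :=
  ∑ x ∈ Fintype.piFinset (fun j : Fin k => s j), if E x then ∏ j : Fin k, p j (x j) else 0

open Classical in
/-- Let `b ≥ 2`, `B ≥ 1`, `C`, `D`, `G`, `T`, `U`, `η > 0`, `δ > 0` and `0 < ε ≤ 1 / 4` be fixed. There are `a₀` and `k₀` such that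
for all `k ≥ k₀` the following holds, with `N = b ^ k`. Let `J` be an arbitrary rich set of scales below `k`. Let
`x 0, ..., x (k - 1)` be arbitrary independent random integers with `|x j| ≤ B b ^ j` such that, for all `j` in `J`, no
interval of the length `b ^ j / B` contains `x j` with a probability larger than `1 - η` (nothing is assumed for the other `j`:
these `x j` may be constants). Let `c` be an arbitrary integer with `(B + 1) N ≤ c ≤ G N`, and let `F` be a collection of at most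
`k ^ T` arbitrary sets `A` of at least `N / k ^ C` integers in `[1, N]`. Then, with a probability of at least `1 - 1 / k ^ U`, the
integer `v = c + x 0 + ... + x (k - 1)` is such that for all `A ∈ F` the ratios `R` are normal on `A + v`: for ALL exponents
`a ≥ a₀` with `(log N) ^ a ≤ N`, the mean over the `x ∈ A + v` of `R_h(x)`, `h = (log x) ^ a`, differs from `1` by at most `ε`,
and `R_h(x) ≥ ε / 2` for at least `(1 / 4 - ε) |A|` of the `x ∈ A + v`. -/
theorem result (b B C D G T U : ℕ) (hb : 2 ≤ b) (hB : 1 ≤ B) (η δ ε : ℝ) (hη : 0 < η) (hδ : 0 < δ) (hε : 0 < ε)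
    (hε1 : ε ≤ 1 / 4) : ∃ (a₀ : ℝ) (k₀ : ℕ), ∀ k : ℕ, k₀ ≤ k → ∀ J : Finset ℕ, Rich δ D k J →
      ∀ (s : ℕ → Finset ℤ) (p : ℕ → ℤ → ℝ),
      (∀ j < k, (∀ x ∈ s j, 0 ≤ p j x ∧ |x| ≤ (B : ℤ) * (b : ℤ) ^ j) ∧ ∑ x ∈ s j, p j x = 1) →
      (∀ j ∈ J, ∀ y : ℤ, ∑ x ∈ (s j).filter (fun x => y ≤ x ∧ (B : ℤ) * (x - y) ≤ (b : ℤ) ^ j), p j x ≤ 1 - η) →
      ∀ c : ℤ, ((B : ℤ) + 1) * (b : ℤ) ^ k ≤ c → c ≤ (G : ℤ) * (b : ℤ) ^ k →
      ∀ F : Finset (Finset ℕ), (∀ A ∈ F, A ⊆ Icc 1 (b ^ k) ∧ (b : ℝ) ^ k ≤ A.card * (k : ℝ) ^ C) → F.card ≤ k ^ T →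
        Prob k s p (fun x => ¬ ∀ A ∈ F, Normal ε a₀ (b ^ k) A (c + ∑ j, x j)) ≤ 1 / (k : ℝ) ^ U := by
  obtain ⟨a₀, k₀, h1⟩ := Pool.Agent.J4H77.TR.rs_ratio b B G D C T U hb hB η δ ε hη hδ hε hε1
  refine ⟨a₀, k₀, fun k hk J hJ s p hs hp c hc1 hc2 F hF hFc => ?_⟩
  have h2 := h1 k hk J s p c ⟨hJ.lt, hJ.low, hJ.high, hJ.all⟩ hs (fun j hj y => by
      rw [← sum_filter]; exact hp j hj y) hc1 hc2 F hF hFc
  refine le_trans (le_of_eq ?_) h2
  unfold Prob
  apply sum_congr rfl
  intro x _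
  have hiff : (¬ ∀ A ∈ F, Normal ε a₀ (b ^ k) A (c + ∑ j, x j)) ↔ ¬ ∀ A ∈ F, ∀ a : ℝ, a₀ ≤ a →
      Real.log ((b ^ k : ℕ) : ℝ) ^ a ≤ ((b ^ k : ℕ) : ℝ) →
        |∑ n ∈ A, Pool.Agent.J4H77.TR.ratio a ((n + (c + ∑ j : Fin k, x j) : ℤ) : ℝ) - A.card| ≤ ε * A.card ∧
        (1 / 4 - ε) * A.card ≤ ((A.filter (fun n : ℕ => ε / 2 ≤
          Pool.Agent.J4H77.TR.ratio a ((n + (c + ∑ j : Fin k, x j) : ℤ) : ℝ))).card : ℝ) := by
    apply not_congr
    constructor
    · intro h A hA a ha haN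
      obtain ⟨h3, h4⟩ := h A hA a ha haN
      refine ⟨h3, h4.trans (le_of_eq ?_)⟩
      congr
    · intro h A hA a ha haN
      obtain ⟨h3, h4⟩ := h A hA a ha haN
      refine ⟨h3, h4.trans (le_of_eq ?_)⟩
      congr
  by_cases h3 : ¬ ∀ A ∈ F, Normal ε a₀ (b ^ k) A (c + ∑ j, x j)
  · rw [if_pos h3, if_pos (hiff.1 h3)]
  · rw [if_neg h3, if_neg (fun h4 => h3 (hiff.2 h4))]

end Pool.Agent.Results.MP_b09185_nt.TranslatesByRandomSums
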